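import Mathlib
import Pool.Agent.H27.Cor.NStar
import Pool.Agent.H27.Cor.Lbh

open MeasureTheory Set Filter Topology
open scoped Real Interval
open Pool.Agent Pool.Agent.H27.Cor

/-- Assume the Riemann Hypothesis. For some `b > 0` and all large `T`,
`N*(T) ≤ N(T; -b, b) ≤ 1.3155 (T/2π) log T`, where `N*(T)` is the sum of the multiplicities `m(ρ)` of the
nontrivial zeros with `0 < Im ρ ≤ T` counted with multiplicity (that is, the sum of `m(ρ)²` over the
distinct zeros) and `N(T; -b, b)` is the number of ordered pairs of zeros at distance at most `b` times the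
average spacing. -/
theorem Pool.Agent.H87.Parked.MultiplicitySum.result (hRH : RiemannHypothesis) :
    ∃ b : ℝ, 0 < b ∧ ∀ᶠ T in atTop, multSum T ≤ PC.pairCount T (-b) b ∧
      PC.pairCount T (-b) b ≤ 13155 / 10000 * PC.norm T :=
  nstar hRH (lbh hRH)
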